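import Pool.Agent.Lib.MP_bd3808_ag.BO.Model

/-!
# Infinitely many braid group orbits of full exceptional systems in an explicit triangulated category

`QQ k` is the `k`-linear category with 24 objects whose Hom spaces are graded pieces of the
polynomial ring `k[u₀,u₁,la,mu,z₀,z₁,z₂,z₃]` (Cox ring of `F₁ × P³`) between the first 16 objects,
and graded pieces of the ring `R'` generated by `u₀, u₁, la, mu, z₀, z₃, w₁, w₂` for morphisms to one
of the last 8 objects (`QH`). `Kb (Mat_ (QQ k))` is the homotopy category of bounded complexes over
its additive envelope. For every field `k` which contains an element of infinite order of `kˣ` the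
full exceptional systems in this triangulated category, taken up to isomorphisms and shifts of the
members, form infinitely many orbits under the braid group.
-/

set_option autoImplicit false

noncomputable section

open CategoryTheory

namespace Pool.Agent.Lib.MP_bd3808_ag.Variants.TiltingModel

universe w

/-- The full exceptional systems of `K^b(add 𝒬)`, up to isomorphisms and shifts of the members, form
infinitely many orbits under mutations. -/
theorem result (k : Type w) [Field k] (t : kˣ) (ht : ∀ n : ℤ, t ^ n = 1 → n = 0) :
    Infinite (BO.MatOrbits k (BO.QQ k) 24) :=
  BO.infinite_MatOrbits k t ht

end Pool.Agent.Lib.MP_bd3808_ag.Variants.TiltingModel
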